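import Mathlib
import Pool.Agent.H892.KT.EN

/-!
# Project EN, NBHD: small invariant neighbourhoods
-/

set_option autoImplicit false

open Filter Topology Set

namespace Pool.Agent.H415.KT

open Pool.Agent.H892.KT

theorem continuous_bA : Continuous bA := by
  unfold bA
  fun_prop

variable {n : ℕ}

theorem orb_cont (K : KatoData n) (k : ℕ) : ∀ i : ZMod n,
    ContinuousOn (fun y => orb K.σ k i y) (K.U i) := by
  induction k with
  | zero =>
    intro i
    exact continuousOn_id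
  | succ k ih =>
    intro i
    have h1 : ContinuousOn (fun y => bA (K.σ i y)) (K.U i) :=
      continuous_bA.comp_continuousOn (K.diff i).continuousOn
    exact (ih (i + 1)).comp h1 (fun y hy => K.maps i y hy)

/-- the neighbourhoods -/
def VV (K : KatoData n) (M : ℕ) (d : ℝ) (i : ZMod n) : Set (ℂ × ℂ) :=
  {y | y ∈ K.U i ∧ ∀ k < M, ‖orb K.σ k i y‖ < d}

theorem VV_open (K : KatoData n) (M : ℕ) (d : ℝ) (i : ZMod n) : IsOpen (VV K M d i) := by
  have h1 : VV K M d i = K.U i ∩ ⋂ k ∈ Finset.range M,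
      (K.U i ∩ (fun y => orb K.σ k i y) ⁻¹' Metric.ball 0 d) := by
    ext y
    constructor
    · rintro ⟨h1, h2⟩
      refine ⟨h1, ?_⟩
      rw [mem_iInter₂]
      intro k hk
      refine ⟨h1, ?_⟩
      rw [mem_preimage, mem_ball_zero_iff]
      exact h2 k (Finset.mem_range.1 hk)
    · rintro ⟨h1, h2⟩
      refine ⟨h1, fun k hk => ?_⟩
      rw [mem_iInter₂] at h2
      have h3 := (h2 k (Finset.mem_range.2 hk)).2
      rw [mem_preimage, mem_ball_zero_iff] at h3
      exact h3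
  rw [h1]
  refine (K.isOpen_U i).inter (isOpen_biInter_finset fun k _ => ?_)
  exact (orb_cont K k i).isOpen_inter_preimage (K.isOpen_U i) Metric.isOpen_ball

/-- **NBHD.** -/
theorem t_NBHD : S_NBHD := by
  intro n _ K hG δ hδ
  obtain ⟨θ, C, d0, hθ0, hθ1, hC, hd0, hG⟩ := hG
  have hC0 : 0 < C := by linarith
  obtain ⟨η, hη⟩ : ∃ η, η = min δ d0 := ⟨_, rfl⟩
  have hη0 : 0 < η := by
    rw [hη]
    exact lt_min hδ hd0
  have hηδ : η ≤ δ := by
    rw [hη]
    exact min_le_left _ _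
  have hηd : η ≤ d0 := by
    rw [hη]
    exact min_le_right _ _
  obtain ⟨M, hM1, hM⟩ : ∃ M : ℕ, 1 ≤ M ∧ C * θ ^ M ≤ 1 / 2 := by
    obtain ⟨M0, hM0⟩ := exists_pow_lt_of_lt_one (show (0 : ℝ) < 1 / (2 * C) by positivity) hθ1
    refine ⟨M0 + 1, by omega, ?_⟩
    have h1 : θ ^ (M0 + 1) ≤ θ ^ M0 := pow_le_pow_of_le_one hθ0.le hθ1.le (Nat.le_succ M0)
    calc C * θ ^ (M0 + 1) ≤ C * (1 / (2 * C)) :=
          mul_le_mul_of_nonneg_left (h1.trans hM0.le) hC0.le
      _ = 1 / 2 := by field_simp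
  have hδ' : 0 < η / C := div_pos hη0 hC0
  have hδη : η / C ≤ η := div_le_self hη0.le hC
  refine ⟨VV K M η, η / C, hδ', fun i => VV_open K M η i, ?_, ?_, fun i y hy => hy.1, ?_⟩
  · intro i y hy
    rw [mem_ball_zero_iff] at hy
    obtain ⟨h1, h2⟩ := hG i y (by linarith)
    refine ⟨h1, fun k _ => ?_⟩
    have h3 : θ ^ k ≤ 1 := pow_le_one₀ hθ0.le hθ1.le
    have h4 : C * θ ^ k * ‖y‖ ≤ C * ‖y‖ :=
      mul_le_mul_of_nonneg_right (mul_le_of_le_one_right hC0.le h3) (norm_nonneg y)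
    have h5 : C * ‖y‖ < η := by
      rw [lt_div_iff₀ hC0] at hy
      linarith
    exact (h2 k).trans_lt (h4.trans_lt h5)
  · intro i y hy
    rw [mem_ball_zero_iff]
    exact (hy.2 0 (by omega)).trans_le hηδ
  · intro i y hy
    refine ⟨K.maps i y hy.1, fun k hk => ?_⟩
    change ‖orb K.σ (k + 1) i y‖ < η
    by_cases hk' : k + 1 < M
    · exact hy.2 (k + 1) hk'
    · have hkM : k + 1 = M := by omega
      have hy0 : ‖y‖ < η := hy.2 0 (by omega)
      rw [hkM]
      have h1 := (hG i y (by linarith)).2 M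
      have h2 : C * θ ^ M * ‖y‖ ≤ 1 / 2 * ‖y‖ := mul_le_mul_of_nonneg_right hM (norm_nonneg y)
      have h3 := norm_nonneg y
      linarith

end Pool.Agent.H415.KT
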